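import Pool.Agent.H7Apolar2

set_option autoImplicit false

open Pool.Agent.H7Apolar

namespace Pool.Agent.Results.MP_254873_ag.MaxRegularity

/-- `M(1,d) = 0`, `M(2,d) = d` and `M(n,d) = ∞` for `n ≥ 3`, for all `d ≥ 1`. -/
theorem result (n d : ℕ) (hn : 1 ≤ n) (hd : 1 ≤ d) :
    M n d = if n = 1 then 0 else if n = 2 then (d : ℕ∞) else ⊤ :=
  main n d hn hd

end Pool.Agent.Results.MP_254873_ag.MaxRegularity
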